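import Mathlib

/-!
# Rainbow cycles of length `n - 2` in optimal edge-colourings of `K_n`

For every `k ≥ 3` and `n = 2 ^ k` there is an optimal edge-colouring of `K_n` in which every cycle
of length `n - 2` has two edges of the same colour.
-/

namespace Pool.Agent.Results.MP_4bc86c_co.NoRainbow

open Finset

/-- `c` is a proper edge-colouring of the complete graph on `V`: two distinct edges sharing a
vertex get different colours. -/
def IsProper {V : Type} (c : Sym2 V → ℕ) : Prop :=
  ∀ u v w : V, u ≠ v → u ≠ w → v ≠ w → c s(u, v) ≠ c s(u, w)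

/-- the set of colours that `c` uses on the edges of the complete graph on `V`. -/
def colours {V : Type} (c : Sym2 V → ℕ) : Set ℕ :=
  c '' (⊤ : SimpleGraph V).edgeSet

/-- `c` is an optimal edge-colouring of the complete graph on `V`: it is proper and no proper
edge-colouring of this graph uses fewer colours. -/
def IsOptimal {V : Type} (c : Sym2 V → ℕ) : Prop :=
  IsProper c ∧ ∀ c' : Sym2 V → ℕ, IsProper c' → (colours c).ncard ≤ (colours c').ncard

/-- the colour of a pair in the elementary abelian `2`-group. -/
def addCol {k : ℕ} {V : Type} (e : V → (Fin k → ZMod 2)) : Sym2 V → (Fin k → ZMod 2) :=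
  Sym2.lift ⟨fun x y => e x + e y, fun _ _ => add_comm _ _⟩

theorem addCol_mk {k : ℕ} {V : Type} (e : V → (Fin k → ZMod 2)) (x y : V) :
    addCol e s(x, y) = e x + e y := rfl

theorem self_add {k : ℕ} (x : Fin k → ZMod 2) : x + x = 0 := by
  funext i
  simp only [Pi.add_apply, Pi.zero_apply]
  exact CharTwo.add_self_eq_zero _

/-- the colours along a walk telescope. -/
theorem walk_sum {k : ℕ} {V : Type} (e : V → (Fin k → ZMod 2)) {u v : V}
    (p : (⊤ : SimpleGraph V).Walk u v) : (p.edges.map (addCol e)).sum = e u + e v := by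
  induction p with
  | nil => simp [self_add]
  | @cons u v w h p ih =>
    rw [SimpleGraph.Walk.edges_cons, List.map_cons, List.sum_cons, ih, addCol_mk]
    have := self_add (e v)
    calc e u + e v + (e v + e w) = e u + (e v + e v) + e w := by abel
      _ = e u + e w := by rw [this, add_zero]

/-- the sum of all elements of `(ZMod 2) ^ k` is zero when `k ≥ 2`. -/
theorem sum_univ {k : ℕ} (hk : 2 ≤ k) : ∑ x : Fin k → ZMod 2, x = 0 := by
  funext i
  rw [Finset.sum_apply, Pi.zero_apply]
  obtain ⟨j, hj⟩ : ∃ j : Fin k, j ≠ i := by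
    have : Nontrivial (Fin k) := Fin.nontrivial_iff_two_le.mpr hk
    exact exists_ne i
  refine Finset.sum_involution (fun x _ => Function.update x j (x j + 1)) ?_ ?_ ?_ ?_
  · intro x _
    rw [Function.update_of_ne hj.symm]
    exact CharTwo.add_self_eq_zero _
  · intro x _ _ h
    have := congrFun h j
    simp at this
  · intro x _
    exact Finset.mem_univ _
  · intro x _
    funext l
    by_cases hl : l = j
    · subst hl
      simp only [Function.update_self]
      rw [add_assoc, CharTwo.add_self_eq_zero, add_zero]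
    · rw [Function.update_of_ne hl, Function.update_of_ne hl]

theorem card_grp (k : ℕ) : Fintype.card (Fin k → ZMod 2) = 2 ^ k := by
  simp [ZMod.card]

/-- a repetition-free list of `2 ^ k - 2` nonzero elements does not sum to zero. -/
theorem no_list {k : ℕ} (hk : 2 ≤ k) (L : List (Fin k → ZMod 2)) (hL : L.Nodup)
    (h0 : ∀ x ∈ L, x ≠ 0) (hlen : L.length = 2 ^ k - 2) : L.sum ≠ 0 := by
  classical
  intro hs
  have hpow : 4 ≤ 2 ^ k := by
    calc 4 = 2 ^ 2 := by norm_num
      _ ≤ 2 ^ k := Nat.pow_le_pow_right (by norm_num) hk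
  have hcard : L.toFinset.card = 2 ^ k - 2 := by
    rw [List.toFinset_card_of_nodup hL, hlen]
  have h0' : (0 : Fin k → ZMod 2) ∉ L.toFinset := by
    intro h
    exact h0 0 (List.mem_toFinset.mp h) rfl
  have hc : (insert 0 L.toFinset)ᶜ.card = 1 := by
    rw [Finset.card_compl, Finset.card_insert_of_notMem h0', hcard, card_grp]
    omega
  obtain ⟨m, hm⟩ := Finset.card_eq_one.mp hc
  have hm0 : m ≠ 0 := by
    intro h
    have : m ∈ (insert 0 L.toFinset)ᶜ := by rw [hm]; exact Finset.mem_singleton_self m
    rw [Finset.mem_compl, Finset.mem_insert] at this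
    exact this (Or.inl h)
  have hsum : ∑ x : Fin k → ZMod 2, x =
      ∑ x ∈ insert 0 L.toFinset, x + ∑ x ∈ (insert 0 L.toFinset)ᶜ, x :=
    (Finset.sum_add_sum_compl _ _).symm
  rw [sum_univ hk, hm, Finset.sum_singleton, Finset.sum_insert h0', zero_add] at hsum
  have hLs : ∑ x ∈ L.toFinset, x = L.sum := by
    rw [List.sum_toFinset _ hL]
    simp
  rw [hLs, hs, zero_add] at hsum
  exact hm0 hsum.symm

/-- every proper edge-colouring of the complete graph on `m` vertices uses at least `m - 1`
colours. -/
theorem le_colours {m : ℕ} (c : Sym2 (Fin (m + 1)) → ℕ) (hc : IsProper c) :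
    m ≤ (colours c).ncard := by
  classical
  have hfin : (colours c).Finite := Set.Finite.image _ (Set.toFinite _)
  let f : Fin m → ℕ := fun i => c s(0, i.succ)
  have hf : Function.Injective f := by
    intro i j hij
    by_contra hne
    exact hc 0 i.succ j.succ (Fin.succ_ne_zero i).symm (Fin.succ_ne_zero j).symm
      (fun h => hne (Fin.succ_injective _ h)) hij
  have hsub : Set.range f ⊆ colours c := by
    rintro _ ⟨i, rfl⟩
    refine ⟨s(0, i.succ), ?_, rfl⟩
    rw [SimpleGraph.mem_edgeSet, SimpleGraph.top_adj]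
    exact (Fin.succ_ne_zero i).symm
  calc m = Nat.card (Fin m) := by simp
    _ = (Set.range f).ncard := by
        rw [← Set.image_univ, Set.ncard_image_of_injective _ hf, Set.ncard_univ]
    _ ≤ (colours c).ncard := Set.ncard_le_ncard hsub hfin

/-- For every `k ≥ 3`, writing `n = 2 ^ k` (so `n ≥ 8`), there is an optimal edge-colouring of
`K_n` in which no cycle of length `n - 2` is rainbow. -/
theorem result : ∀ k : ℕ, 3 ≤ k → ∃ c : Sym2 (Fin (2 ^ k)) → ℕ, IsOptimal c ∧
    ∀ (v : Fin (2 ^ k)) (p : (⊤ : SimpleGraph (Fin (2 ^ k))).Walk v v), p.IsCycle →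
      p.length = 2 ^ k - 2 → ¬ (p.edges.map c).Nodup := by
  classical
  intro k hk
  obtain ⟨e⟩ : Nonempty (Fin (2 ^ k) ≃ (Fin k → ZMod 2)) := by
    refine ⟨Fintype.equivOfCardEq ?_⟩
    rw [card_grp, Fintype.card_fin]
  let g : (Fin k → ZMod 2) → ℕ := fun x => (e.symm x : ℕ)
  have hg : Function.Injective g := fun x y h => e.symm.injective (Fin.ext h)
  let c : Sym2 (Fin (2 ^ k)) → ℕ := fun z => g (addCol e z)
  have hprop : IsProper c := by
    intro u v w _ _ hvw h
    have h1 := hg h
    rw [addCol_mk, addCol_mk] at h1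
    exact hvw (e.injective (add_left_cancel h1))
  have hcol : (colours c).ncard ≤ 2 ^ k - 1 := by
    have hsub : colours c ⊆ g '' {x | x ≠ 0} := by
      rintro _ ⟨z, hz, rfl⟩
      induction z using Sym2.inductionOn with
      | hf x y =>
        refine ⟨addCol e s(x, y), ?_, rfl⟩
        rw [SimpleGraph.mem_edgeSet, SimpleGraph.top_adj] at hz
        rw [addCol_mk]
        intro h
        apply hz
        apply e.injective
        have h2 := self_add (e y)
        exact add_right_cancel (h.trans h2.symm)
    have hcardne : ({x : Fin k → ZMod 2 | x ≠ 0}).ncard = 2 ^ k - 1 := by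
      have h1 : {x : Fin k → ZMod 2 | x ≠ 0} = ({0} : Set (Fin k → ZMod 2))ᶜ := by
        ext x; simp
      rw [h1, Set.ncard_compl, Set.ncard_singleton, Nat.card_eq_fintype_card, card_grp]
    calc (colours c).ncard ≤ (g '' {x | x ≠ 0}).ncard :=
          Set.ncard_le_ncard hsub (Set.toFinite _)
      _ ≤ ({x : Fin k → ZMod 2 | x ≠ 0}).ncard := Set.ncard_image_le (Set.toFinite _)
      _ = 2 ^ k - 1 := hcardne
  refine ⟨c, ⟨hprop, ?_⟩, ?_⟩
  · intro c' hc'
    refine hcol.trans ?_
    obtain ⟨m, hm⟩ : ∃ m, 2 ^ k = m + 1 := ⟨2 ^ k - 1, by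
      have : 0 < 2 ^ k := by positivity
      omega⟩
    have key : ∀ N : ℕ, N = m + 1 → ∀ c' : Sym2 (Fin N) → ℕ, IsProper c' →
        N - 1 ≤ (colours c').ncard := by
      intro N hN
      subst hN
      intro c' hc'
      simpa using le_colours c' hc'
    exact key _ hm c' hc'
  · intro v p hp hlen hnd
    have hL : (p.edges.map (addCol e)).Nodup := by
      have : (p.edges.map c) = (p.edges.map (addCol e)).map g := by
        rw [List.map_map]; rfl
      rw [this] at hnd
      exact hnd.of_map _
    refine no_list (by omega) (p.edges.map (addCol e)) hL ?_ ?_ ?_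
    · intro x hx
      rw [List.mem_map] at hx
      obtain ⟨z, hz, rfl⟩ := hx
      have hz' := SimpleGraph.Walk.edges_subset_edgeSet p hz
      induction z using Sym2.inductionOn with
      | hf x y =>
        rw [SimpleGraph.mem_edgeSet, SimpleGraph.top_adj] at hz'
        rw [addCol_mk]
        intro h
        apply hz'
        apply e.injective
        have h2 := self_add (e y)
        exact add_right_cancel (h.trans h2.symm)
    · rw [List.length_map, SimpleGraph.Walk.length_edges, hlen]
    · rw [walk_sum, self_add]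

end Pool.Agent.Results.MP_4bc86c_co.NoRainbow
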